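import Pool.Agent.H998.HK.Final2

/-!
# The Hohenberg-Kohn theorem for potentials in `L^{3/2}(ℝ³) + L^∞(ℝ³)`

Any number `N = n + 1 ≥ 1` of spin-1/2 electrons, `X = L¹ ∩ L³`, `X* = L^{3/2} + L^∞`.

* For every `ρ ∈ X`, the subdifferential `∂F[ρ]` of the Lieb functional is empty or equal to
  `{-v + μ : μ ∈ ℝ}` for some `v ∈ X*`.
* If two potentials `v₁, v₂ ∈ X*` have a common (ensemble) ground-state density, then `v₁ - v₂` is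
  almost everywhere constant.
-/

set_option autoImplicit false

noncomputable section

namespace Pool.Agent.Results.MP_1266f8_mp.HohenbergKohn

open MeasureTheory
open scoped ENNReal

/-- `ℝ³` with the Euclidean norm and Lebesgue measure -/
abbrev R3 : Type := EuclideanSpace ℝ (Fin 3)

/-- the configuration space `(ℝ³)^N`, with Lebesgue measure (the product measure) -/
abbrev Conf (N : ℕ) : Type := Fin N → R3

/-- the spin configurations of `N` electrons -/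
abbrev Spins (N : ℕ) : Type := Fin N → Fin 2

/-- `ρ ∈ X = L¹(ℝ³) ∩ L³(ℝ³)` -/
def MemX (ρ : R3 → ℝ) : Prop := MemLp ρ 1 ∧ MemLp ρ 3

/-- `v ∈ X* = L^{3/2}(ℝ³) + L^∞(ℝ³)`, real valued -/
def MemXStar (v : R3 → ℝ) : Prop :=
  ∃ v₁ v₂ : R3 → ℝ, MemLp v₁ (3 / 2 : ℝ≥0∞) ∧ MemLp v₂ ∞ ∧ v =ᵐ[volume] v₁ + v₂

/-- `g` is the weak partial derivative of `u : (ℝ³)^N → ℂ` in the `i`-th coordinate of the `j`-th
particle: `∫ (∂φ) u = - ∫ φ g` for all `φ ∈ C_c^∞` -/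
def IsWeakDeriv {N : ℕ} (j : Fin N) (i : Fin 3) (u g : Conf N → ℂ) : Prop :=
  ∀ φ : Conf N → ℝ, ContDiff ℝ ((⊤ : ℕ∞) : WithTop ℕ∞) φ → HasCompactSupport φ →
    ∫ x, fderiv ℝ φ x (Pi.single j (EuclideanSpace.single i (1 : ℝ))) • u x = -∫ x, φ x • g x

/-- `Ψ = Ψ(s, x)`, `s ∈ {0,1}^N`, `x ∈ (ℝ³)^N`, is an antisymmetric wavefunction of `N` spin-1/2
electrons of finite kinetic energy (`Ψ ∈ H¹`), with weak derivatives `G s j i` -/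
structure IsWavefunction (N : ℕ) (Ψ : Spins N → Conf N → ℂ)
    (G : Spins N → Fin N → Fin 3 → Conf N → ℂ) : Prop where
  memLp : ∀ s, MemLp (Ψ s) 2
  grad_memLp : ∀ s j i, MemLp (G s j i) 2
  grad : ∀ s j i, IsWeakDeriv j i (Ψ s) (G s j i)
  antisymm : ∀ (π : Equiv.Perm (Fin N)) (s : Spins N), ∀ᵐ x : Conf N,
    Ψ (s ∘ π) (x ∘ π) = (Equiv.Perm.sign π : ℂ) * Ψ s x

/-- `‖Ψ‖² = 1` -/
def IsNormalized {N : ℕ} (Ψ : Spins N → Conf N → ℂ) : Prop :=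
  ∑ s, ∫ x, ‖Ψ s x‖ ^ 2 = 1

/-- the quadratic form `⟨Ψ, H[v] Ψ⟩` of
`H[v] = ∑ⱼ (-½ Δⱼ + v(xⱼ)) + ∑_{j<k} 1/|xⱼ - xₖ|`; `G` is the gradient of `Ψ` -/
def energy {N : ℕ} (v : R3 → ℝ) (Ψ : Spins N → Conf N → ℂ)
    (G : Spins N → Fin N → Fin 3 → Conf N → ℂ) : ℝ :=
  ∑ s, ((1 / 2 : ℝ) * (∑ j, ∑ i, ∫ x, ‖G s j i x‖ ^ 2) +
    ∫ x : Conf N, (∑ j, v (x j) + ∑ j, ∑ k, if j < k then 1 / ‖x j - x k‖ else 0) *
      ‖Ψ s x‖ ^ 2)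

/-- `E[v] = inf spec H[v]`, the infimum of the quadratic form over normalized wavefunctions
of finite kinetic energy -/
def groundEnergy (N : ℕ) (v : R3 → ℝ) : ℝ :=
  sInf {e : ℝ | ∃ (Ψ : Spins N → Conf N → ℂ) (G : Spins N → Fin N → Fin 3 → Conf N → ℂ),
    IsWavefunction N Ψ G ∧ IsNormalized Ψ ∧ e = energy v Ψ G}

/-- the one-body density `ρ_Ψ(x) = N ∑_s ∫ |Ψ(s, x, x₂, …, x_N)|² dx₂ … dx_N`, `N = n + 1` -/
def density {n : ℕ} (Ψ : Spins (n + 1) → Conf (n + 1) → ℂ) (x : R3) : ℝ :=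
  (n + 1 : ℝ) * ∑ s, ∫ y : Conf n, ‖Ψ s (Fin.cons x y)‖ ^ 2

/-- `Γ = ∑ₖ pₖ |Ψₖ⟩⟨Ψₖ|` is a density operator of `N = n + 1` electrons with
`Tr (H[v] Γ) = e` and one-body density `ρ` -/
structure IsDensityOperator (n : ℕ) (v ρ : R3 → ℝ) (e : ℝ) (p : ℕ → ℝ)
    (Ψ : ℕ → Spins (n + 1) → Conf (n + 1) → ℂ)
    (G : ℕ → Spins (n + 1) → Fin (n + 1) → Fin 3 → Conf (n + 1) → ℂ) : Prop where
  nonneg : ∀ k, 0 ≤ p k
  sum_eq : HasSum p 1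
  wave : ∀ k, IsWavefunction (n + 1) (Ψ k) (G k)
  norm : ∀ k, IsNormalized (Ψ k)
  energy_eq : HasSum (fun k => p k * energy v (Ψ k) (G k)) e
  density_eq : ∀ᵐ x, HasSum (fun k => p k * density (Ψ k) x) (ρ x)

/-- `ρ` is an (ensemble) ground-state density of `v` for `N = n + 1` electrons: there is a density
operator `γ` with `Tr (H[v] γ) = E[v]` and `ρ_γ = ρ` -/
def IsGroundStateDensity (n : ℕ) (v ρ : R3 → ℝ) : Prop :=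
  ∃ (p : ℕ → ℝ) (Ψ : ℕ → Spins (n + 1) → Conf (n + 1) → ℂ)
    (G : ℕ → Spins (n + 1) → Fin (n + 1) → Fin 3 → Conf (n + 1) → ℂ),
    IsDensityOperator n v ρ (groundEnergy (n + 1) v) p Ψ G

/-- the functional `F[ρ] = inf {Tr (H[0] Γ) : Γ ↦ ρ}` of `N = n + 1` electrons, over the density
operators `Γ` with `Tr (H[0] Γ) < ∞`; it is `+∞` if there is none -/
def F (n : ℕ) (ρ : R3 → ℝ) : EReal :=
  sInf {e : EReal | ∃ (r : ℝ) (p : ℕ → ℝ) (Ψ : ℕ → Spins (n + 1) → Conf (n + 1) → ℂ)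
    (G : ℕ → Spins (n + 1) → Fin (n + 1) → Fin 3 → Conf (n + 1) → ℂ),
    IsDensityOperator n (fun _ => 0) ρ r p Ψ G ∧ e = (r : EReal)}

/-- the subdifferential
`∂F[ρ] = {w ∈ X* : F[ρ'] ≥ F[ρ] + ∫ w (ρ' - ρ) for all ρ' ∈ X}` -/
def subdifferential (n : ℕ) (ρ : R3 → ℝ) : Set (R3 → ℝ) :=
  {w | MemXStar w ∧ ∀ ρ' : R3 → ℝ, MemX ρ' →
    F n ρ + ((∫ x, w x * (ρ' x - ρ x) : ℝ) : EReal) ≤ F n ρ'}

section bridge

open Pool.Agent.H998.HK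

theorem isWave_iff {N : ℕ} {Ψ : Spins N → Conf N → ℂ} {G : Spins N → Fin N → Fin 3 → Conf N → ℂ} :
    IsWavefunction N Ψ G ↔ IsWave N Ψ G :=
  ⟨fun h => ⟨h.memLp, h.grad_memLp, fun s j i φ hφ => h.grad s j i φ hφ.1 hφ.2, h.antisymm⟩,
    fun h => ⟨h.memLp, h.gradMemLp, fun s j i φ h1 h2 => h.grad s j i φ ⟨h1, h2⟩, h.antisymm⟩⟩

theorem isDM_iff {n : ℕ} {v ρ : R3 → ℝ} {e : ℝ} {p : ℕ → ℝ}
    {Ψ : ℕ → Spins (n + 1) → Conf (n + 1) → ℂ}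
    {G : ℕ → Spins (n + 1) → Fin (n + 1) → Fin 3 → Conf (n + 1) → ℂ} :
    IsDensityOperator n v ρ e p Ψ G ↔ IsDM n v ρ e p Ψ G :=
  ⟨fun h => ⟨h.nonneg, h.sum_eq, fun k => ⟨isWave_iff.1 (h.wave k), h.norm k⟩, h.energy_eq,
    h.density_eq⟩, fun h => ⟨h.1, h.2.1, fun k => isWave_iff.2 (h.2.2.1 k).1,
      fun k => (h.2.2.1 k).2, h.2.2.2.1, h.2.2.2.2⟩⟩

theorem groundEnergy_eq (n : ℕ) (v : R3 → ℝ) : groundEnergy (n + 1) v = E0 n v := by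
  unfold groundEnergy E0
  congr 1
  ext e
  constructor
  · rintro ⟨Ψ, G, ha, hb, hc⟩
    exact ⟨Ψ, G, isWave_iff.1 ha, hb, hc⟩
  · rintro ⟨Ψ, G, ha, hb, hc⟩
    exact ⟨Ψ, G, isWave_iff.2 ha, hb, hc⟩

theorem isGSD {n : ℕ} {v ρ : R3 → ℝ} (h : IsGroundStateDensity n v ρ) : IsGSD n v ρ := by
  obtain ⟨p, Ψ, G, h⟩ := h
  rw [groundEnergy_eq] at h
  exact ⟨p, Ψ, G, isDM_iff.1 h⟩

theorem xStar {v : R3 → ℝ} (h : MemXStar v) : XStar v := by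
  obtain ⟨v₁, v₂, h1, h2, h3⟩ := h
  refine ⟨fun x => v x - v₂ x, v₂, h1.ae_eq ?_, h2, fun x => by ring⟩
  filter_upwards [h3] with x hx
  simp only [hx, Pi.add_apply]
  ring

theorem memXStar {v : R3 → ℝ} (h : XStar v) : MemXStar v := by
  obtain ⟨v₁, v₂, h1, h2, h3⟩ := h
  exact ⟨v₁, v₂, h1, h2, Filter.Eventually.of_forall h3⟩

theorem F_eq (n : ℕ) (ρ : R3 → ℝ) : F n ρ = FL n ρ := by
  unfold F FL
  congr 1
  ext e
  constructor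
  · rintro ⟨r, p, Ψ, G, h, he⟩
    exact ⟨r, p, Ψ, G, isDM_iff.1 h, he⟩
  · rintro ⟨r, p, Ψ, G, h, he⟩
    exact ⟨r, p, Ψ, G, isDM_iff.2 h, he⟩

theorem mem_sub_iff {n : ℕ} {ρ w : R3 → ℝ} : w ∈ subdifferential n ρ ↔ w ∈ subD n ρ := by
  constructor
  · rintro ⟨h1, h2⟩
    refine ⟨xStar h1, fun ρ' a b => ?_⟩
    have := h2 ρ' ⟨a, b⟩
    rwa [F_eq, F_eq] at this
  · rintro ⟨h1, h2⟩
    refine ⟨memXStar h1, fun ρ' h => ?_⟩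
    rw [F_eq, F_eq]
    exact h2 ρ' h.1 h.2

end bridge

/-- **Hohenberg-Kohn theorem in `L^{3/2} + L^∞`**, for any number `N = n + 1 ≥ 1` of electrons.
(1) For every `ρ ∈ X = L¹ ∩ L³`, either `∂F[ρ] = ∅` or `∂F[ρ] = {-v + μ : μ ∈ ℝ}` for some
`v ∈ X*`. (2) If `v₁, v₂ ∈ X*` have a common ground-state density, then `v₁ - v₂` is almost
everywhere constant. -/
theorem result :
    (∀ (n : ℕ) (ρ : R3 → ℝ), MemX ρ → subdifferential n ρ = ∅ ∨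
      ∃ v : R3 → ℝ, MemXStar v ∧
        subdifferential n ρ = {w | ∃ μ : ℝ, ∀ᵐ x, w x = -v x + μ}) ∧
    (∀ (n : ℕ) (v₁ v₂ : R3 → ℝ), MemXStar v₁ → MemXStar v₂ → ∀ ρ : R3 → ℝ,
      IsGroundStateDensity n v₁ ρ → IsGroundStateDensity n v₂ ρ →
        ∃ c : ℝ, ∀ᵐ x, v₁ x - v₂ x = c) := by
  refine ⟨fun n ρ hρ => ?_, fun n v₁ v₂ hv₁ hv₂ ρ h₁ h₂ =>
    Pool.Agent.H998.HK.f_HK n v₁ v₂ (xStar hv₁) (xStar hv₂) ρ (isGSD h₁) (isGSD h₂)⟩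
  rcases Set.eq_empty_or_nonempty (subdifferential n ρ) with h | ⟨w₀, hw₀⟩
  · exact Or.inl h
  · right
    have h0 := mem_sub_iff.1 hw₀
    refine ⟨fun x => -w₀ x, memXStar h0.1.neg, ?_⟩
    ext w
    constructor
    · intro hw
      obtain ⟨c, hc⟩ := Pool.Agent.H998.HK.f_SUB hρ.1 hρ.2 (mem_sub_iff.1 hw) h0
      refine ⟨c, ?_⟩
      filter_upwards [hc] with x hx
      linarith
    · rintro ⟨μ, hμ⟩
      have hX : Pool.Agent.H998.HK.XStar w := by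
        apply xStar
        obtain ⟨a, b, ha, hb, hab⟩ := hw₀.1
        refine ⟨a, fun x => b x + μ, ha, hb.add (memLp_top_const μ), ?_⟩
        filter_upwards [hμ, hab] with x h1 h2
        simp only [Pi.add_apply] at h2 ⊢
        rw [h1, h2]; ring
      refine mem_sub_iff.2 (Pool.Agent.H998.HK.f_SUBadd hρ.1 hρ.2 h0 μ hX ?_)
      filter_upwards [hμ] with x hx
      linarith

end Pool.Agent.Results.MP_1266f8_mp.HohenbergKohn
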